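import Pool.Agent.Helper24.AB.PP.Goals

/-! Packet CAP of project AB: the capacity property (p4) of the potential. -/

set_option autoImplicit false

open MeasureTheory Set Filter Topology
open scoped ContDiff

noncomputable section

namespace Pool.Agent.Helper35.AB.Cap

open _root_.Pool.Agent.Helper24.AB

/-! ### Products of functions with values in `[0,1]` -/

theorem mul_facts {f g : ℂ → ℝ} (hf : Differentiable ℝ f) (hg : Differentiable ℝ g)
    (hf01 : ∀ w, 0 ≤ f w ∧ f w ≤ 1) (hg01 : ∀ w, 0 ≤ g w ∧ g w ≤ 1) (w : ℂ) :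
    ‖fderiv ℝ (fun w => f w * g w) w‖ ≤ ‖fderiv ℝ f w‖ + ‖fderiv ℝ g w‖ := by
  rw [((hf w).hasFDerivAt.fun_mul (hg w).hasFDerivAt).fderiv]
  refine (norm_add_le _ _).trans ?_
  rw [norm_smul, norm_smul, Real.norm_of_nonneg (hf01 w).1, Real.norm_of_nonneg (hg01 w).1]
  have h1 := mul_le_mul_of_nonneg_right (hf01 w).2 (norm_nonneg (fderiv ℝ g w))
  have h2 := mul_le_mul_of_nonneg_right (hg01 w).2 (norm_nonneg (fderiv ℝ f w))
  linarith

theorem prod_facts {ι : Type*} [DecidableEq ι] (s : Finset ι) (f : ι → ℂ → ℝ)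
    (hf : ∀ i ∈ s, Differentiable ℝ (f i)) (h01 : ∀ i ∈ s, ∀ w, 0 ≤ f i w ∧ f i w ≤ 1) :
    (∀ w, 0 ≤ ∏ i ∈ s, f i w ∧ ∏ i ∈ s, f i w ≤ 1) ∧
    Differentiable ℝ (fun w => ∏ i ∈ s, f i w) ∧
    ∀ w, ‖fderiv ℝ (fun w => ∏ i ∈ s, f i w) w‖ ≤ ∑ i ∈ s, ‖fderiv ℝ (f i) w‖ := by
  induction s using Finset.induction_on with
  | empty =>
    refine ⟨fun w => by simp, by simp, fun w => ?_⟩
    simp
  | insert a s ha ih =>
    obtain ⟨h1, h2, h3⟩ := ih (fun i hi => hf i (Finset.mem_insert_of_mem hi))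
      (fun i hi => h01 i (Finset.mem_insert_of_mem hi))
    have hfa := hf a (Finset.mem_insert_self _ _)
    have h01a := h01 a (Finset.mem_insert_self _ _)
    have he : (fun w => ∏ i ∈ insert a s, f i w) = fun w => f a w * ∏ i ∈ s, f i w := by
      funext w
      rw [Finset.prod_insert ha]
    rw [he]
    refine ⟨fun w => ?_, hfa.mul h2, fun w => ?_⟩
    · rw [Finset.prod_insert ha]
      exact ⟨mul_nonneg (h01a w).1 (h1 w).1,
        (mul_le_mul (h01a w).2 (h1 w).2 (h1 w).1 zero_le_one).trans (by norm_num)⟩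
    · rw [Finset.sum_insert ha]
      exact (mul_facts hfa h2 h01a h1 w).trans (by linarith [h3 w])

/-- Cauchy's inequality with weights -/
theorem sq_sum_le {ι : Type*} (s : Finset ι) (w b : ι → ℝ) (hw : ∀ i ∈ s, 0 < w i)
    (hb : ∀ i ∈ s, 0 ≤ b i) (hs : ∑ i ∈ s, w i ≤ 1) (A B : ℝ) (hB : 0 ≤ B)
    (hAB : B ≤ A + ∑ i ∈ s, b i) :
    B ^ 2 ≤ 2 * A ^ 2 + 2 * ∑ i ∈ s, b i ^ 2 / w i := by
  have h1 : (∑ i ∈ s, b i) ^ 2 ≤ (∑ i ∈ s, w i) * ∑ i ∈ s, b i ^ 2 / w i := by
    refine Finset.sum_sq_le_sum_mul_sum_of_sq_le_mul s (fun i hi => (hw i hi).le)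
      (fun i hi => div_nonneg (sq_nonneg _) (hw i hi).le) (fun i hi => ?_)
    rw [mul_div_cancel₀ _ (hw i hi).ne']
  have h2 : 0 ≤ ∑ i ∈ s, b i ^ 2 / w i :=
    Finset.sum_nonneg fun i hi => div_nonneg (sq_nonneg _) (hw i hi).le
  have h3 : (∑ i ∈ s, b i) ^ 2 ≤ ∑ i ∈ s, b i ^ 2 / w i :=
    h1.trans (by nlinarith)
  have h4 : 0 ≤ ∑ i ∈ s, b i := Finset.sum_nonneg hb
  have h5 : B ^ 2 ≤ (A + ∑ i ∈ s, b i) ^ 2 := pow_le_pow_left₀ hB hAB 2
  nlinarith [sq_nonneg (A - ∑ i ∈ s, b i)]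

/-! ### The cut-off in the direction of `σ` -/

/-- the cut-off -/
def v0 (a : ℝ) (w : ℂ) : ℝ :=
  Real.smoothTransition ((9 * a ^ 2 / 64 - w.re ^ 2) / (5 * a ^ 2 / 64))

theorem v0_smooth (a : ℝ) : ContDiff ℝ ∞ (v0 a) := by
  unfold v0
  have h : ContDiff ℝ ∞ (fun w : ℂ => w.re) := Complex.reCLM.contDiff
  exact Real.smoothTransition.contDiff.comp ((contDiff_const.sub (h.pow 2)).div_const _)

theorem v0_mem (a : ℝ) (w : ℂ) : 0 ≤ v0 a w ∧ v0 a w ≤ 1 :=
  ⟨Real.smoothTransition.nonneg _, Real.smoothTransition.le_one _⟩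

theorem v0_one {a : ℝ} (ha : 0 < a) {w : ℂ} (hw : |w.re| < a / 4) : v0 a w = 1 := by
  unfold v0
  apply Real.smoothTransition.one_of_one_le
  rw [le_div_iff₀ (by positivity)]
  have h1 : w.re ^ 2 < (a / 4) ^ 2 := sq_lt_sq' (by linarith [(abs_lt.1 hw).1]) (abs_lt.1 hw).2
  nlinarith

theorem v0_zero {a : ℝ} (ha : 0 < a) {w : ℂ} (hw : 3 * a / 8 ≤ |w.re|) : v0 a w = 0 := by
  unfold v0
  apply Real.smoothTransition.zero_of_nonpos
  apply div_nonpos_of_nonpos_of_nonneg _ (by positivity)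
  have h1 : (3 * a / 8) ^ 2 ≤ |w.re| ^ 2 := pow_le_pow_left₀ (by positivity) hw 2
  rw [sq_abs] at h1
  nlinarith

theorem v0_int (a : ℝ) : IntegrableOn (fun w => ‖fderiv ℝ (v0 a) w‖ ^ 2) (cell a) := by
  have hc : Continuous (fun w => ‖fderiv ℝ (v0 a) w‖ ^ 2) :=
    ((v0_smooth a).continuous_fderiv (by simp)).norm.pow 2
  have hK : IsCompact ((Icc (-a) a) ×ℂ (Icc 0 (2 * Real.pi))) :=
    isCompact_Icc.reProdIm isCompact_Icc
  refine (hc.continuousOn.integrableOn_compact hK).mono_set ?_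
  intro w hw
  rw [Complex.mem_reProdIm]
  exact ⟨⟨(abs_lt.1 hw.1).1.le, (abs_lt.1 hw.1).2.le⟩, hw.2.1, hw.2.2.le⟩

/-! ### The measure of the slab -/

theorem slab_volume (a h : ℝ) :
    volume {w : ℂ | |w.re| < a ∧ 0 ≤ w.im ∧ w.im ≤ h} ≤ ENNReal.ofReal (2 * a * h) := by
  have hmp := Complex.volume_preserving_equiv_real_prod
  have hsub : {w : ℂ | |w.re| < a ∧ 0 ≤ w.im ∧ w.im ≤ h} ⊆
      Complex.measurableEquivRealProd ⁻¹' (Icc (-a) a ×ˢ Icc 0 h) := by
    intro w hw
    exact ⟨⟨(abs_lt.1 hw.1).1.le, (abs_lt.1 hw.1).2.le⟩, hw.2.1, hw.2.2⟩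
  refine (measure_mono hsub).trans ?_
  rw [hmp.measure_preimage (measurableSet_Icc.prod measurableSet_Icc).nullMeasurableSet,
    Measure.volume_eq_prod, Measure.prod_prod, Real.volume_Icc, Real.volume_Icc]
  by_cases ha : 0 ≤ a
  · rw [← ENNReal.ofReal_mul (by linarith)]
    apply ENNReal.ofReal_le_ofReal
    apply le_of_eq
    ring
  · push Not at ha
    rw [ENNReal.ofReal_of_nonpos (by linarith : a - -a ≤ 0), zero_mul]
    exact bot_le

/-! ### The condition on the imaginary part -/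

theorem cos_out {h y : ℝ} (hpi : h ≤ Real.pi) (k : ℤ)
    (hy : 0 ≤ y - 2 * Real.pi * k) (hy2 : y - 2 * Real.pi * k ≤ 2 * h) :
    Real.cos h ≤ Real.cos (y - h) := by
  have h1 : Real.cos (y - h) = Real.cos (y - h - k * (2 * Real.pi)) :=
    (Real.cos_sub_int_mul_two_pi _ _).symm
  rw [h1, ← Real.cos_abs (y - h - k * (2 * Real.pi))]
  apply Real.cos_le_cos_of_nonneg_of_le_pi (abs_nonneg _) hpi
  rw [abs_le]
  constructor <;> linarith

theorem cos_in {h y : ℝ} (h0 : 0 ≤ h)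
    (hy1 : y < 2 * Real.pi) (hc : Real.cos h ≤ Real.cos (y - h)) : y ≤ 2 * h := by
  by_contra hcon
  push Not at hcon
  have h1 : h < y - h := by linarith
  rcases le_or_gt (y - h) Real.pi with h2 | h2
  · exact absurd (Real.cos_lt_cos_of_nonneg_of_le_pi h0 h2 h1) (not_lt.2 hc)
  · have h3 : Real.cos (y - h) = Real.cos (2 * Real.pi - (y - h)) :=
      (Real.cos_two_pi_sub _).symm
    rw [h3] at hc
    have h4 : h < 2 * Real.pi - (y - h) := by linarith
    exact absurd (Real.cos_lt_cos_of_nonneg_of_le_pi h0 (by linarith) h4) (not_lt.2 hc)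

/-! ### The set `G` -/

/-- the good set of abscissas -/
def Gset (a : ℝ) (N : ℕ → ℕ) (c : ℕ → ℕ → ℝ) (R : ℕ → ℝ) : Set ℝ :=
  {x | |x| < a / 4 ∧ ∀ j i, i < N j → R j < |x - c j i|}

theorem Gset_meas (a : ℝ) (N : ℕ → ℕ) (c : ℕ → ℕ → ℝ) (R : ℕ → ℝ) :
    MeasurableSet (Gset a N c R) := by
  have he : Gset a N c R = {x : ℝ | |x| < a / 4} ∩
      ⋂ j, ⋂ i, ⋂ (_ : i < N j), {x : ℝ | R j < |x - c j i|} := by
    ext x
    simp only [Gset, Set.mem_ofPred_eq, mem_inter_iff, mem_iInter]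
  rw [he]
  refine MeasurableSet.inter (isOpen_lt (by fun_prop) continuous_const).measurableSet ?_
  exact MeasurableSet.iInter fun j => MeasurableSet.iInter fun i => MeasurableSet.iInter fun _ =>
      (isOpen_lt continuous_const (by fun_prop)).measurableSet

theorem Gset_vol {a : ℝ} (ha : 0 < a) (N : ℕ → ℕ) (c : ℕ → ℕ → ℝ) (R : ℕ → ℝ)
    (hR : ∀ j, (N j : ℝ) * R j ≤ a * (1 / 2) ^ (j + 5)) :
    ENNReal.ofReal (a / 4) ≤ volume (Gset a N c R) := by
  set bad : Set ℝ := ⋃ j, ⋃ i ∈ Finset.range (N j), Icc (c j i - R j) (c j i + R j) with hbad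
  have hcov : Ioo (-(a / 4)) (a / 4) ⊆ Gset a N c R ∪ bad := by
    intro x hx
    by_cases hxb : x ∈ bad
    · exact Or.inr hxb
    · left
      refine ⟨abs_lt.2 hx, fun j i hi => ?_⟩
      by_contra hcon
      push Not at hcon
      apply hxb
      rw [hbad]
      simp only [mem_iUnion]
      refine ⟨j, i, Finset.mem_range.2 hi, ?_⟩
      rw [abs_le] at hcon
      exact ⟨by linarith [hcon.1], by linarith [hcon.2]⟩
  have hbv : volume bad ≤ ENNReal.ofReal (a / 8) := by
    have h1 : ∀ j, volume (⋃ i ∈ Finset.range (N j), Icc (c j i - R j) (c j i + R j)) ≤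
        ENNReal.ofReal (a * (1 / 2) ^ (j + 4)) := by
      intro j
      refine (measure_biUnion_finset_le _ _).trans ?_
      have h2 : ∀ i ∈ Finset.range (N j), volume (Icc (c j i - R j) (c j i + R j)) =
          ENNReal.ofReal (2 * R j) := by
        intro i _
        rw [Real.volume_Icc]
        congr 1
        ring
      rw [Finset.sum_congr rfl h2, Finset.sum_const, Finset.card_range, nsmul_eq_mul,
        ← ENNReal.ofReal_natCast, ← ENNReal.ofReal_mul (by positivity)]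
      apply ENNReal.ofReal_le_ofReal
      have := hR j
      have h3 : a * (1 / 2 : ℝ) ^ (j + 4) = 2 * (a * (1 / 2) ^ (j + 5)) := by ring
      rw [h3]
      linarith
    refine (measure_iUnion_le _).trans ((ENNReal.tsum_le_tsum h1).trans ?_)
    have h4 : HasSum (fun j : ℕ => a * (1 / 2 : ℝ) ^ (j + 4)) (a / 8) := by
      have h := (hasSum_geometric_two).mul_left (a * (1 / 16))
      have he : a * (1 / 16) * 2 = a / 8 := by ring
      rw [he] at h
      have he2 : (fun j : ℕ => a * (1 / 2 : ℝ) ^ (j + 4)) =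
          fun j : ℕ => a * (1 / 16) * (1 / 2 : ℝ) ^ j := by
        funext j
        ring
      rw [he2]
      exact h
    rw [← ENNReal.ofReal_tsum_of_nonneg (fun j => by positivity) h4.summable, h4.tsum_eq]
  have h5 : volume (Ioo (-(a / 4)) (a / 4)) = ENNReal.ofReal (a / 2) := by
    rw [Real.volume_Ioo]
    congr 1
    ring
  have h6 : ENNReal.ofReal (a / 2) ≤ volume (Gset a N c R) + ENNReal.ofReal (a / 8) := by
    rw [← h5]
    exact (measure_mono hcov).trans ((measure_union_le _ _).trans (by gcongr))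
  have h7 : ENNReal.ofReal (a / 4) + ENNReal.ofReal (a / 8) ≤ ENNReal.ofReal (a / 2) := by
    rw [← ENNReal.ofReal_add (by positivity) (by positivity)]
    apply ENNReal.ofReal_le_ofReal
    linarith
  exact (ENNReal.add_le_add_iff_right ENNReal.ofReal_ne_top).1 (h7.trans h6)

/-! ### The main statement -/

/-- the index set of the holes of the blocks `0, …, n` -/
def IX (Ns Nt : ℕ → ℕ) (n : ℕ) : Finset (Σ _ : ℕ, ℕ × ℕ) :=
  (Finset.range (n + 1)).sigma (fun j => Finset.range (Ns j) ×ˢ Finset.range (Nt j))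

theorem mem_IX {Ns Nt : ℕ → ℕ} {n : ℕ} {m : Σ _ : ℕ, ℕ × ℕ} :
    m ∈ IX Ns Nt n ↔ m.1 ≤ n ∧ m.2.1 < Ns m.1 ∧ m.2.2 < Nt m.1 := by
  unfold IX
  simp only [Finset.mem_sigma, Finset.mem_range, Finset.mem_product, Nat.lt_succ_iff]

theorem cap (hBD : S_BD) (hLOGP : S_LOGP) : S_CAP := by
  intro a ρ₀ ha ha2 hρ₀
  have hB := hBD a ρ₀ 0 ha ha2 hρ₀
  set B : BlockData := BD a ρ₀ 0 with hBdef
  have hrho : ∀ j, B.rho j = rhoj a ρ₀ j := fun j => rfl
  have hNs : ∀ j, B.Ns j = Nsj a ρ₀ j := fun j => rfl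
  have hNt : ∀ j, B.Nt j = Ntj a ρ₀ j := fun j => rfl
  have htau : ∀ j, B.tau j = (1 / 2) ^ j := fun j => rfl
  have hρ : ∀ j, 0 < B.rho j := fun j => (hB j).2.2.2.2.1
  have hρ4 : ∀ j, B.rho j ≤ 1 / 4 := fun j => (hB j).2.2.2.2.2.2.1
  have hb : ∀ j, 0 < B.b j := fun j => (hB j).2.1
  have hb2 : ∀ j, B.b j ≤ (1 / 2) ^ (j + 1) := fun j => (hB j).2.2.1
  have hNs0 : ∀ j, (0 : ℝ) < B.Ns j := by
    intro j
    have h1 := (hB j).2.2.2.2.2.2.2.2.2.2.1
    have h2 := (hB j).2.2.2.2.2.2.2.2.1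
    have h3 : 0 < (B.Ns j : ℝ) * B.rho j := by rw [h1]; linarith
    exact pos_of_mul_pos_left h3 (hρ j).le
  have hNtb : ∀ j, (B.Nt j : ℝ) * B.rho j = B.b j := fun j => (hB j).2.2.2.2.2.2.2.2.2.2.2
  have hNt0 : ∀ j, (0 : ℝ) < B.Nt j := by
    intro j
    have h3 : 0 < (B.Nt j : ℝ) * B.rho j := by rw [hNtb]; exact hb j
    exact pos_of_mul_pos_left h3 (hρ j).le
  -- the radii and the energies
  set R : ℕ → ℝ := fun j => min (B.rho j / 8) (a * (1 / 2) ^ (j + 5) / B.Ns j) with hR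
  have hR0 : ∀ j, 0 < R j := fun j =>
    lt_min (by linarith [hρ j]) (div_pos (by positivity) (hNs0 j))
  have hR1 : ∀ j, R j ≤ 1 := fun j =>
    (min_le_left _ _).trans (by linarith [hρ j, hρ4 j])
  set W : ℕ → ℝ := fun j => (1 / 2) ^ (j + 1) / (B.Ns j * B.Nt j) with hW
  have hW0 : ∀ j, 0 < W j := fun j => div_pos (by positivity) (mul_pos (hNs0 j) (hNt0 j))
  choose r hr0 hrR ψ hψs hψp hψ01 hψ1 hψ0 hψi using
    fun j => hLOGP (R j) (W j ^ 2) (hR0 j) (hR1 j) (pow_pos (hW0 j) 2)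
  refine ⟨r, fun j => ⟨hr0 j, (hrR j).trans_le ((min_le_left _ _).trans ?_)⟩, ?_⟩
  · rw [← hrho]; linarith [hρ j]
  intro p hp
  -- the functions
  set Φ : (Σ _ : ℕ, ℕ × ℕ) → ℂ → ℝ := fun m w => 1 - ψ m.1 (B.ctr m.1 m.2.1 m.2.2) w with hΦ
  have hΦs : ∀ m, ContDiff ℝ ∞ (Φ m) := fun m => contDiff_const.sub (hψs _ _)
  have hΦd : ∀ m, Differentiable ℝ (Φ m) := fun m => (hΦs m).differentiable (by simp)
  have hΦ01 : ∀ m w, 0 ≤ Φ m w ∧ Φ m w ≤ 1 := fun m w => by
    have := hψ01 m.1 (B.ctr m.1 m.2.1 m.2.2) w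
    simp only [hΦ]
    exact ⟨by linarith [this.2], by linarith [this.1]⟩
  set P : ℕ → ℂ → ℝ := fun n w => ∏ m ∈ IX B.Ns B.Nt n, Φ m w with hP
  set v : ℕ → ℂ → ℝ := fun n w => v0 a w * P n w with hv
  have hPs : ∀ n, ContDiff ℝ ∞ (P n) := fun n => contDiff_prod fun m _ => hΦs m
  have hPf := fun n => prod_facts (IX B.Ns B.Nt n) Φ (fun m _ => hΦd m) (fun m _ => hΦ01 m)
  have hfΦ : ∀ m w, ‖fderiv ℝ (Φ m) w‖ = ‖fderiv ℝ (ψ m.1 (B.ctr m.1 m.2.1 m.2.2)) w‖ := by
    intro m w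
    simp only [hΦ]
    rw [fderiv_const_sub, norm_neg]
  have hv01 : ∀ n w, 0 ≤ v n w ∧ v n w ≤ 1 := fun n w =>
    ⟨mul_nonneg (v0_mem a w).1 ((hPf n).1 w).1,
      (mul_le_mul (v0_mem a w).2 ((hPf n).1 w).2 ((hPf n).1 w).1 zero_le_one).trans
        (by norm_num)⟩
  -- constants
  set C₀ : ℝ := ∫ w in cell a, ‖fderiv ℝ (v0 a) w‖ ^ 2 with hC₀
  refine ⟨2 * C₀ + 2, a / 4, 3 * a / 8, Gset a B.Ns (fun j i => (B.ctr j i 0).re) R, v,
    by positivity, by linarith, Gset_meas _ _ _ _, ?_, ?_, ?_⟩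
  · intro x hx
    have := abs_lt.1 hx.1
    exact ⟨by linarith [this.1], by linarith [this.2]⟩
  · apply Gset_vol ha _ _ _
    intro j
    have h1 : R j ≤ a * (1 / 2) ^ (j + 5) / B.Ns j := min_le_right _ _
    rw [le_div_iff₀ (hNs0 j)] at h1
    linarith
  intro n
  refine ⟨(v0_smooth a).mul (hPs n), ?_, hv01 n, ?_, ?_, ?_, ?_⟩
  · -- periodicity
    intro w
    have h1 : v0 a (w + 2 * Real.pi * Complex.I) = v0 a w := by
      unfold v0
      have : (w + 2 * Real.pi * Complex.I).re = w.re := by simp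
      rw [this]
    simp only [hv, hP, hΦ, h1, hψp]
  · intro w hw
    simp only [hv]
    rw [v0_zero ha hw, zero_mul]
  · -- the energy
    have hpt : ∀ w, ‖fderiv ℝ (v n) w‖ ^ 2 ≤ 2 * ‖fderiv ℝ (v0 a) w‖ ^ 2 +
        2 * ∑ m ∈ IX B.Ns B.Nt n,
          ‖fderiv ℝ (ψ m.1 (B.ctr m.1 m.2.1 m.2.2)) w‖ ^ 2 / W m.1 := by
      intro w
      apply sq_sum_le (IX B.Ns B.Nt n) (fun m => W m.1)
        (fun m => ‖fderiv ℝ (ψ m.1 (B.ctr m.1 m.2.1 m.2.2)) w‖) (fun m _ => hW0 m.1)
        (fun m _ => norm_nonneg _) _ _ _ (norm_nonneg _)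
      · refine (mul_facts ((v0_smooth a).differentiable (by simp)) (hPf n).2.1 (v0_mem a)
          (hPf n).1 w).trans ?_
        refine add_le_add le_rfl (((hPf n).2.2 w).trans (le_of_eq ?_))
        exact Finset.sum_congr rfl fun m _ => hfΦ m w
      · unfold IX
        rw [Finset.sum_sigma]
        simp only [Finset.sum_const, Finset.card_product, Finset.card_range, nsmul_eq_mul]
        have h1 : ∀ j ∈ Finset.range (n + 1), ((B.Ns j * B.Nt j : ℕ) : ℝ) * W j =
            (1 / 2) ^ (j + 1) := by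
          intro j _
          simp only [hW]
          have := (hNs0 j).ne'
          have := (hNt0 j).ne'
          push_cast
          field_simp
        rw [Finset.sum_congr rfl h1]
        have h2 : ∀ n : ℕ, ∑ j ∈ Finset.range n, (1 / 2 : ℝ) ^ (j + 1) = 1 - (1 / 2) ^ n := by
          intro n
          induction n with
          | zero => simp
          | succ n ih => rw [Finset.sum_range_succ, ih]; ring
        rw [h2]
        have : (0 : ℝ) < (1 / 2) ^ (n + 1) := by positivity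
        linarith
    have hint1 : IntegrableOn (fun w => 2 * ‖fderiv ℝ (v0 a) w‖ ^ 2) (cell a) :=
      (v0_int a).const_mul 2
    have hint2 : ∀ m ∈ IX B.Ns B.Nt n, IntegrableOn
        (fun w => ‖fderiv ℝ (ψ m.1 (B.ctr m.1 m.2.1 m.2.2)) w‖ ^ 2 / W m.1) (cell a) :=
      fun m _ => (hψi m.1 _ a).1.div_const _
    have hint3 : IntegrableOn (fun w => 2 * ∑ m ∈ IX B.Ns B.Nt n,
          ‖fderiv ℝ (ψ m.1 (B.ctr m.1 m.2.1 m.2.2)) w‖ ^ 2 / W m.1) (cell a) :=
      (integrable_finsetSum _ hint2).const_mul 2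
    calc (∫ w in cell a, ‖fderiv ℝ (v n) w‖ ^ 2)
        ≤ ∫ w in cell a, (2 * ‖fderiv ℝ (v0 a) w‖ ^ 2 +
        2 * ∑ m ∈ IX B.Ns B.Nt n,
          ‖fderiv ℝ (ψ m.1 (B.ctr m.1 m.2.1 m.2.2)) w‖ ^ 2 / W m.1) := by
          apply integral_mono_of_nonneg
          · exact Eventually.of_forall fun w => sq_nonneg _
          · exact hint1.add hint3
          · exact Eventually.of_forall hpt
      _ = 2 * C₀ + 2 * ∑ m ∈ IX B.Ns B.Nt n,
          (∫ w in cell a, ‖fderiv ℝ (ψ m.1 (B.ctr m.1 m.2.1 m.2.2)) w‖ ^ 2) / W m.1 := by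
          rw [integral_add hint1 hint3, integral_const_mul, integral_const_mul,
            integral_finsetSum _ hint2]
          simp only [integral_div]
          rfl
      _ ≤ 2 * C₀ + 2 * 1 := by
          have h3 : ∑ m ∈ IX B.Ns B.Nt n,
              (∫ w in cell a, ‖fderiv ℝ (ψ m.1 (B.ctr m.1 m.2.1 m.2.2)) w‖ ^ 2) / W m.1 ≤
              ∑ m ∈ IX B.Ns B.Nt n, W m.1 := by
            apply Finset.sum_le_sum
            intro m _
            rw [div_le_iff₀ (hW0 m.1), ← sq]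
            exact (hψi m.1 _ a).2
          have h4 : ∑ m ∈ IX B.Ns B.Nt n, W m.1 ≤ 1 := by
            unfold IX
            rw [Finset.sum_sigma]
            simp only [Finset.sum_const, Finset.card_product, Finset.card_range, nsmul_eq_mul]
            have h1 : ∀ j ∈ Finset.range (n + 1), ((B.Ns j * B.Nt j : ℕ) : ℝ) * W j =
                (1 / 2) ^ (j + 1) := by
              intro j _
              simp only [hW]
              have := (hNs0 j).ne'
              have := (hNt0 j).ne'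
              push_cast
              field_simp
            rw [Finset.sum_congr rfl h1]
            have h2 : ∀ n : ℕ, ∑ j ∈ Finset.range n, (1 / 2 : ℝ) ^ (j + 1) = 1 - (1 / 2) ^ n := by
              intro n
              induction n with
              | zero => simp
              | succ n ih => rw [Finset.sum_range_succ, ih]; ring
            rw [h2]
            have : (0 : ℝ) < (1 / 2) ^ (n + 1) := by positivity
            linarith
          linarith
      _ = 2 * C₀ + 2 := by ring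
  · -- value on `G`
    intro w hw
    have h1 : v0 a w = 1 := v0_one ha hw.1
    have h2 : P n w = 1 := by
      simp only [hP]
      apply Finset.prod_eq_one
      intro m hm
      rw [mem_IX] at hm
      simp only [hΦ]
      rw [hψ0, sub_zero]
      intro k
      have h3 := hw.2 m.1 m.2.1 hm.2.1
      refine h3.le.trans ?_
      have h4 : |(w - B.ctr m.1 m.2.1 m.2.2 - 2 * Real.pi * Complex.I * k).re| ≤
          ‖w - B.ctr m.1 m.2.1 m.2.2 - 2 * Real.pi * Complex.I * k‖ := Complex.abs_re_le_norm _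
      refine le_trans (le_of_eq ?_) h4
      congr 1
      have : (B.ctr m.1 m.2.1 m.2.2).re = (B.ctr m.1 m.2.1 0).re := rfl
      simp [this]
    simp only [hv]
    rw [h1, h2]
    norm_num
  · -- the open set
    set h : ℝ := (1 / 2) ^ (n + 1) with hh
    have hh0 : 0 < h := by positivity
    have hh1 : h ≤ Real.pi := by
      have h1 : h ≤ 1 := pow_le_one₀ (by norm_num) (by norm_num)
      linarith [Real.pi_gt_three]
    refine ⟨{w | P n w ≠ 0} ∩ {w | Real.cos (w.im - h) < Real.cos h}, ?_, ?_, ?_⟩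
    · apply IsOpen.inter
      · exact isOpen_ne_fun (hPs n).continuous continuous_const
      · exact isOpen_lt (by fun_prop) continuous_const
    · intro w hw hws
      apply hp w hws
      intro j i i' k hi hi'
      by_contra hcon
      push Not at hcon
      by_cases hj : j ≤ n
      · apply hw.1
        simp only [hP]
        apply Finset.prod_eq_zero (i := (⟨j, (i, i')⟩ : Σ _ : ℕ, ℕ × ℕ))
        · rw [mem_IX]
          exact ⟨hj, hi, hi'⟩
        · simp only [hΦ]
          rw [hψ1 j _ w k hcon, sub_self]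
      · push Not at hj
        have h1 : |(w - B.ctr j i i' - 2 * Real.pi * Complex.I * k).im| ≤ r j :=
          (Complex.abs_im_le_norm _).trans hcon
        have h2 : (w - B.ctr j i i' - 2 * Real.pi * Complex.I * k).im =
            w.im - (B.tau j + (i' + 1 / 2) * B.rho j) - 2 * Real.pi * k := by
          simp [BlockData.ctr]
        rw [h2, abs_le] at h1
        have h3 : r j < B.rho j / 8 := (hrR j).trans_le (min_le_left _ _)
        have h4 : ((i' : ℝ) + 1) * B.rho j ≤ B.b j := by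
          rw [← hNtb j]
          apply mul_le_mul_of_nonneg_right _ (hρ j).le
          have : i' + 1 ≤ B.Nt j := hi'
          exact_mod_cast this
        have h5 : (0 : ℝ) ≤ (i' : ℝ) * B.rho j := mul_nonneg (Nat.cast_nonneg _) (hρ j).le
        have h6 : B.tau j + B.b j ≤ 2 * h := by
          rw [htau]
          have h7 : (1 / 2 : ℝ) ^ j ≤ (1 / 2) ^ (n + 1) :=
            pow_le_pow_of_le_one (by norm_num) (by norm_num) hj
          have h8 : (1 / 2 : ℝ) ^ (j + 1) = (1 / 2) ^ j / 2 := by ring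
          have h9 := hb2 j
          rw [h8] at h9
          rw [← hh] at h7
          have h10 : (0 : ℝ) < (1 / 2) ^ j := by positivity
          linarith
        have h7 : (0 : ℝ) < B.tau j := by rw [htau]; positivity
        have h8 := hρ j
        exact absurd hw.2 (not_lt.2 (cos_out hh1 k (by nlinarith) (by nlinarith)))
    · refine (measure_mono (t := {w : ℂ | |w.re| < a ∧ 0 ≤ w.im ∧ w.im ≤ 2 * h}) ?_).trans
        ((slab_volume a (2 * h)).trans ?_)
      · intro w hw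
        obtain ⟨hwc, hwv, hwO⟩ := hw
        have h1 : P n w ≠ 0 := fun h0 => hwv (by simp only [hv]; rw [h0, mul_zero])
        have h2 : Real.cos h ≤ Real.cos (w.im - h) := by
          by_contra hcon
          push Not at hcon
          exact hwO ⟨h1, hcon⟩
        exact ⟨hwc.1, hwc.2.1, cos_in hh0.le hwc.2.2 h2⟩
      · apply ENNReal.ofReal_le_ofReal
        have h1 : 2 * a * (2 * h) ≤ 2 * h := by nlinarith
        have h2 : 2 * h = 1 / 2 ^ n := by
          rw [hh, pow_succ]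
          rw [one_div, inv_pow]
          ring
        rw [h2] at h1 ⊢
        have h3 : ((n : ℝ) + 1) ≤ 2 ^ n := by
          have : n + 1 ≤ 2 ^ n := Nat.lt_two_pow_self
          exact_mod_cast this
        refine h1.trans ?_
        exact one_div_le_one_div_of_le (by positivity) h3

end Pool.Agent.Helper35.AB.Cap
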