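import Pool.Agent.Helper24.AB.PP.Goals

/-! Packet SERIES of project AB: sums of quasi-periodic functions with very small coefficients. -/

set_option autoImplicit false

open MeasureTheory Set Filter Topology
open scoped ContDiff

noncomputable section

namespace Pool.Agent.Helper35.AB

open _root_.Pool.Agent.Helper24.AB

theorem lam_pos : 0 < lam := by unfold lam; positivity

theorem one_lt_lam : 1 < lam := by
  unfold lam
  have : 0 ≤ Real.sqrt 5 := Real.sqrt_nonneg _
  linarith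

theorem lam_lt_three : lam < 3 := by
  unfold lam
  have : Real.sqrt 5 < 3 := by
    rw [Real.sqrt_lt' (by norm_num)]; norm_num
  linarith

theorem kap_pos : 0 < kap := by
  unfold kap
  have := Real.log_pos one_lt_lam
  have := Real.pi_pos
  positivity

theorem kap_lt_one : kap < 1 := by
  unfold kap
  rw [div_lt_one (by have := Real.pi_pos; positivity)]
  have h1 : Real.log lam < 3 := by
    have := Real.log_lt_sub_one_of_pos lam_pos one_lt_lam.ne'
    linarith [lam_lt_three]
  have := Real.pi_gt_three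
  linarith

theorem exp_two_pi_kap : Real.exp (kap * (2 * Real.pi)) = lam := by
  unfold kap
  rw [div_mul_cancel₀ _ (by have := Real.pi_pos; positivity), Real.exp_log lam_pos]

/-! ### Bounded derivatives of periodic functions -/

/-- A smooth function with period `2πi` which vanishes for `|Re| ≥ 1` has bounded derivatives. -/
theorem bounded_iter {F : ℂ → ℝ} (hF : ContDiff ℝ ∞ F)
    (hper : ∀ w, F (w + 2 * Real.pi * Complex.I) = F w) (hz : ∀ w : ℂ, 1 ≤ |w.re| → F w = 0)
    (k : ℕ) : ∃ C : ℝ, 0 ≤ C ∧ ∀ w, ‖iteratedFDeriv ℝ k F w‖ ≤ C := by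
  set D : ℂ → ℝ := fun w => ‖iteratedFDeriv ℝ k F w‖ with hD
  have hcont : Continuous D := (hF.continuous_iteratedFDeriv (m := k) (by exact_mod_cast le_top)).norm
  have hDper : Function.Periodic D (2 * Real.pi * Complex.I) := by
    intro w
    simp only [hD]
    rw [← iteratedFDeriv_comp_add_right]
    congr 2
    funext z
    exact hper z
  have hDz : ∀ w : ℂ, 1 < |w.re| → D w = 0 := by
    intro w hw
    have hev : F =ᶠ[𝓝 w] fun _ => (0 : ℝ) := by
      have hop : IsOpen {z : ℂ | 1 < |z.re|} :=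
        isOpen_lt continuous_const (Complex.continuous_re.abs)
      filter_upwards [hop.mem_nhds hw] with z hz'
      exact hz z (le_of_lt hz')
    simp only [hD]
    rw [(hev.iteratedFDeriv ℝ k).eq_of_nhds]
    have : iteratedFDeriv ℝ k (fun _ : ℂ => (0 : ℝ)) w = 0 := by
      have := iteratedFDeriv_fun_zero (𝕜 := ℝ) (E := ℂ) (F := ℝ) (n := k)
      exact congrFun this w
    rw [this, norm_zero]
  -- compact set
  set K : Set ℂ := (Icc (-1 : ℝ) 1) ×ℂ (Icc 0 (2 * Real.pi)) with hK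
  have hKc : IsCompact K := isCompact_Icc.reProdIm isCompact_Icc
  obtain ⟨C, hC⟩ := hKc.exists_bound_of_continuousOn (f := D) hcont.continuousOn
  refine ⟨max C 0, le_max_right _ _, fun w => ?_⟩
  change D w ≤ _
  by_cases hw : 1 < |w.re|
  · rw [hDz w hw]; exact le_max_right _ _
  push Not at hw
  have h2p : (0 : ℝ) < 2 * Real.pi := by have := Real.pi_pos; positivity
  set n : ℤ := ⌊w.im / (2 * Real.pi)⌋ with hn
  have h1 : D (w - n * (2 * Real.pi * Complex.I)) = D w := hDper.sub_int_mul_eq n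
  have hmem : w - n * (2 * Real.pi * Complex.I) ∈ K := by
    rw [hK, Complex.mem_reProdIm]
    have hre : (w - n * (2 * Real.pi * Complex.I)).re = w.re := by simp
    have him : (w - n * (2 * Real.pi * Complex.I)).im = w.im - n * (2 * Real.pi) := by simp
    rw [hre, him]
    refine ⟨abs_le.1 hw, ?_⟩
    have h3 := Int.floor_le (w.im / (2 * Real.pi))
    have h4 := Int.lt_floor_add_one (w.im / (2 * Real.pi))
    rw [le_div_iff₀ h2p] at h3
    rw [div_lt_iff₀ h2p] at h4
    rw [← hn] at h3 h4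
    constructor
    · linarith
    · nlinarith
  rw [← h1]
  have h5 := hC _ hmem
  rw [Real.norm_eq_abs] at h5
  exact (le_abs_self _).trans (h5.trans (le_max_left _ _))

/-! ### Second derivatives -/

theorem fderiv_smooth {g : ℂ → ℝ} (hg : ContDiff ℝ ∞ g) : ContDiff ℝ ∞ (fderiv ℝ g) :=
  (contDiff_infty_iff_fderiv.1 hg).2

theorem fderiv_diff {g : ℂ → ℝ} (hg : ContDiff ℝ ∞ g) : Differentiable ℝ (fderiv ℝ g) :=
  (fderiv_smooth hg).differentiable (by simp)

theorem dSS_eq {g : ℂ → ℝ} (hg : ContDiff ℝ ∞ g) (w : ℂ) :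
    dS (dS g) w = fderiv ℝ (fderiv ℝ g) w 1 1 := by
  have h1 : DifferentiableAt ℝ (fderiv ℝ g) w := fderiv_diff hg w
  unfold dS
  have h2 := (h1.hasFDerivAt.clm_apply (hasFDerivAt_const (1 : ℂ) w)).fderiv
  rw [h2]
  simp

theorem dTT_eq {g : ℂ → ℝ} (hg : ContDiff ℝ ∞ g) (w : ℂ) :
    dT (dT g) w = fderiv ℝ (fderiv ℝ g) w Complex.I Complex.I := by
  have h1 : DifferentiableAt ℝ (fderiv ℝ g) w := fderiv_diff hg w
  unfold dT
  have h2 := (h1.hasFDerivAt.clm_apply (hasFDerivAt_const (Complex.I : ℂ) w)).fderiv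
  rw [h2]
  simp

theorem lapC_eq {g : ℂ → ℝ} (hg : ContDiff ℝ ∞ g) (w : ℂ) :
    lapC g w = fderiv ℝ (fderiv ℝ g) w 1 1 + fderiv ℝ (fderiv ℝ g) w Complex.I Complex.I := by
  rw [lapC, dSS_eq hg, dTT_eq hg]

theorem dS_smooth {g : ℂ → ℝ} (hg : ContDiff ℝ ∞ g) : ContDiff ℝ ∞ (dS g) := by
  unfold dS
  exact (fderiv_smooth hg).clm_apply contDiff_const

theorem dT_smooth {g : ℂ → ℝ} (hg : ContDiff ℝ ∞ g) : ContDiff ℝ ∞ (dT g) := by
  unfold dT
  exact (fderiv_smooth hg).clm_apply contDiff_const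

/-! ### The factor `e^{κt}` -/

/-- the factor -/
def ek (c : ℝ) (w : ℂ) : ℝ := Real.exp (c * w.im)

theorem ek_smooth (c : ℝ) : ContDiff ℝ ∞ (ek c) := by
  unfold ek
  have h : ContDiff ℝ ∞ (fun w : ℂ => w.im) := Complex.imCLM.contDiff
  exact Real.contDiff_exp.comp (contDiff_const.mul h)

theorem ek_hasFDerivAt (c : ℝ) (w : ℂ) :
    HasFDerivAt (ek c) ((ek c w * c) • Complex.imCLM) w := by
  have h : HasFDerivAt (fun w : ℂ => c * w.im) (c • Complex.imCLM) w :=
    (Complex.imCLM.hasFDerivAt).const_mul c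
  have h2 := h.exp
  have he : (ek c w * c) • Complex.imCLM = Real.exp (c * w.im) • (c • Complex.imCLM) := by
    rw [smul_smul]; rfl
  rw [he]
  exact h2

theorem mul_hasFDerivAt (c : ℝ) {g : ℂ → ℝ} (hg : ContDiff ℝ ∞ g) (w : ℂ) :
    HasFDerivAt (fun w => ek c w * g w)
      (ek c w • fderiv ℝ g w + (ek c w * c * g w) • Complex.imCLM) w := by
  have h1 : HasFDerivAt g (fderiv ℝ g w) w :=
    ((hg.differentiable (by simp)) w).hasFDerivAt
  have h2 := (ek_hasFDerivAt c w).mul h1
  have he : ek c w • fderiv ℝ g w + (ek c w * c * g w) • Complex.imCLM =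
      ek c w • fderiv ℝ g w + g w • (ek c w * c) • Complex.imCLM := by
    rw [smul_smul]
    congr 2
    ring
  rw [he]
  exact h2

theorem dS_mul (c : ℝ) {g : ℂ → ℝ} (hg : ContDiff ℝ ∞ g) :
    dS (fun w => ek c w * g w) = fun w => ek c w * dS g w := by
  funext w
  unfold dS
  rw [(mul_hasFDerivAt c hg w).fderiv]
  simp

theorem dT_mul (c : ℝ) {g : ℂ → ℝ} (hg : ContDiff ℝ ∞ g) :
    dT (fun w => ek c w * g w) = fun w => ek c w * (dT g w + c * g w) := by
  funext w
  unfold dT
  rw [(mul_hasFDerivAt c hg w).fderiv]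
  simp
  ring

theorem dT_add' {f g : ℂ → ℝ} (hf : ContDiff ℝ ∞ f) (hg : ContDiff ℝ ∞ g) (c : ℝ) (w : ℂ) :
    dT (fun w => f w + c * g w) w = dT f w + c * dT g w := by
  unfold dT
  have h1 : HasFDerivAt f (fderiv ℝ f w) w := ((hf.differentiable (by simp)) w).hasFDerivAt
  have h2 : HasFDerivAt g (fderiv ℝ g w) w := ((hg.differentiable (by simp)) w).hasFDerivAt
  rw [(h1.fun_add (h2.const_mul c)).fderiv]
  simp

theorem lapC_mul (c : ℝ) {g : ℂ → ℝ} (hg : ContDiff ℝ ∞ g) (w : ℂ) :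
    lapC (fun w => ek c w * g w) w = ek c w * (lapC g w + 2 * c * dT g w + c ^ 2 * g w) := by
  have hs : ContDiff ℝ ∞ (fun w => dT g w + c * g w) :=
    (dT_smooth hg).add (contDiff_const.mul hg)
  unfold lapC
  rw [dS_mul c hg, dS_mul c (dS_smooth hg), dT_mul c hg, dT_mul c hs]
  simp only []
  rw [dT_add' (dT_smooth hg) hg]
  ring

theorem lapC_const_mul (c : ℝ) {g : ℂ → ℝ} (hg : ContDiff ℝ ∞ g) (w : ℂ) :
    lapC (fun w => c * g w) w = c * lapC g w := by
  have h1 : fderiv ℝ (fun w => c * g w) = fun w => c • fderiv ℝ g w := by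
    funext z
    exact (((hg.differentiable (by simp)) z).hasFDerivAt.const_mul c).fderiv
  have h2 : DifferentiableAt ℝ (fderiv ℝ g) w := fderiv_diff hg w
  rw [lapC_eq (contDiff_const.mul hg), lapC_eq hg, h1, (h2.hasFDerivAt.fun_const_smul c).fderiv]
  simp
  ring

/-! ### Sums -/

theorem sum_facts (f : ℕ → ℂ → ℝ) (v : ℕ → ℕ → ℝ) (U : ℕ → ℝ) (A : ℝ)
    (hfs : ∀ j, ContDiff ℝ ∞ (f j)) (hv : ∀ k, Summable (v k))
    (hfk : ∀ k j w, ‖iteratedFDeriv ℝ k (f j) w‖ ≤ v k j) (hU : HasSum U A)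
    (hf0 : ∀ j w, ‖f j w‖ ≤ U j) (hf1 : ∀ j w, ‖fderiv ℝ (f j) w‖ ≤ U j)
    (hf2 : ∀ j w, ‖fderiv ℝ (fderiv ℝ (f j)) w‖ ≤ U j) (F : ℂ → ℝ)
    (hF : F = fun w => ∑' j, f j w) :
    ContDiff ℝ ∞ F ∧ (∀ w, HasSum (fun j => f j w) (F w)) ∧
    (∀ w, HasSum (fun j => dT (f j) w) (dT F w)) ∧
    (∀ w, HasSum (fun j => lapC (f j) w) (lapC F w)) ∧
    (∀ w, |F w| ≤ A) ∧ (∀ w, ‖fderiv ℝ F w‖ ≤ A) ∧ ∀ w, ‖fderiv ℝ (fderiv ℝ F) w‖ ≤ A := by
  have hFs : ContDiff ℝ ∞ F := by
    rw [hF]
    exact contDiff_tsum (v := v) (N := ⊤) hfs (fun k _ => hv k) (fun k j w _ => hfk k j w)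
  have hsum0 : ∀ w, Summable fun j => f j w := fun w =>
    Summable.of_norm_bounded hU.summable (fun j => hf0 j w)
  have hsum1 : ∀ w, Summable fun j => fderiv ℝ (f j) w := fun w =>
    Summable.of_norm_bounded hU.summable (fun j => hf1 j w)
  have hsum2 : ∀ w, Summable fun j => fderiv ℝ (fderiv ℝ (f j)) w := fun w =>
    Summable.of_norm_bounded (E := ℂ →L[ℝ] ℂ →L[ℝ] ℝ) hU.summable (fun j => hf2 j w)
  have hd1 : fderiv ℝ F = fun w => ∑' j, fderiv ℝ (f j) w := by
    rw [hF]
    exact fderiv_tsum hU.summable (fun j => (hfs j).differentiable (by simp)) hf1 (hsum0 0)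
  have hdd : ∀ j, Differentiable ℝ (fderiv ℝ (f j)) := fun j => fderiv_diff (hfs j)
  have hd2 : fderiv ℝ (fderiv ℝ F) = fun w => ∑' j, fderiv ℝ (fderiv ℝ (f j)) w := by
    rw [hd1]
    exact fderiv_tsum hU.summable hdd hf2 (hsum1 0)
  have hs1 : ∀ w, HasSum (fun j => fderiv ℝ (f j) w) (fderiv ℝ F w) := fun w => by
    rw [hd1]; exact (hsum1 w).hasSum
  have hs2 : ∀ w, HasSum (fun j => fderiv ℝ (fderiv ℝ (f j)) w) (fderiv ℝ (fderiv ℝ F) w) :=
    fun w => by rw [hd2]; exact (hsum2 w).hasSum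
  refine ⟨hFs, ?_, ?_, ?_, ?_, ?_, ?_⟩
  · intro w
    rw [hF]
    exact (hsum0 w).hasSum
  · intro w
    have h := (ContinuousLinearMap.apply ℝ ℝ (Complex.I : ℂ)).hasSum (hs1 w)
    exact h
  · intro w
    have h1 := (ContinuousLinearMap.apply ℝ ℝ (1 : ℂ)).hasSum
      ((ContinuousLinearMap.apply ℝ (ℂ →L[ℝ] ℝ) (1 : ℂ)).hasSum (hs2 w))
    have h2 := (ContinuousLinearMap.apply ℝ ℝ (Complex.I : ℂ)).hasSum
      ((ContinuousLinearMap.apply ℝ (ℂ →L[ℝ] ℝ) (Complex.I : ℂ)).hasSum (hs2 w))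
    have h3 := h1.add h2
    rw [lapC_eq hFs]
    have he : (fun j => lapC (f j) w) = fun j => fderiv ℝ (fderiv ℝ (f j)) w 1 1 +
        fderiv ℝ (fderiv ℝ (f j)) w Complex.I Complex.I := by
      funext j
      exact lapC_eq (hfs j) w
    rw [he]
    exact h3
  · intro w
    rw [hF]
    exact tsum_of_norm_bounded hU (fun j => hf0 j w)
  · intro w
    rw [hd1]
    exact tsum_of_norm_bounded hU (fun j => hf1 j w)
  · intro w
    rw [hd2]
    exact tsum_of_norm_bounded (E := ℂ →L[ℝ] ℂ →L[ℝ] ℝ) hU (fun j => hf2 j w)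

/-! ### The main statement -/

theorem series : S_SERIES := by
  intro δ Q hδ hQ hqp hQz
  -- the periodic functions
  set H : ℕ → ℂ → ℝ := fun j w => ek (-kap) w * Q j w with hH
  have hHs : ∀ j, ContDiff ℝ ∞ (H j) := fun j => (ek_smooth _).mul (hQ j)
  have hHper : ∀ j w, H j (w + 2 * Real.pi * Complex.I) = H j w := by
    intro j w
    simp only [hH, hqp, ek]
    have him : (w + 2 * Real.pi * Complex.I).im = w.im + 2 * Real.pi := by simp
    rw [him, mul_add, Real.exp_add]
    have h1 : Real.exp (-kap * (2 * Real.pi)) = lam⁻¹ := by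
      rw [neg_mul, Real.exp_neg, exp_two_pi_kap]
    rw [h1]
    have := lam_pos.ne'
    field_simp
  have hHz : ∀ j (w : ℂ), 1 ≤ |w.re| → H j w = 0 := by
    intro j w hw
    simp only [hH, hQz j w hw, mul_zero]
  choose C hC0 hC using fun j k => bounded_iter (hHs j) (hHper j) (hHz j) k
  -- the bound
  set S : ℕ → ℝ := fun j => ∑ k ∈ Finset.range (j + 3), C j k with hS
  have hS0 : ∀ j, 0 ≤ S j := fun j => Finset.sum_nonneg fun k _ => hC0 j k
  set U : ℕ → ℝ := fun j => δ * (1 / 2) ^ (j + 1) / 20 with hU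
  set M : ℕ → ℝ := fun j => U j / (1 + S j) with hM
  have hU0 : ∀ j, 0 < U j := fun j => by simp only [hU]; positivity
  have hM0 : ∀ j, 0 < M j := fun j => div_pos (hU0 j) (by linarith [hS0 j])
  refine ⟨M, hM0, fun ε hε => ?_⟩
  have hUsum : HasSum U (δ / 20) := by
    have h := (hasSum_geometric_two).mul_left (δ * (1 / 2) / 20)
    have he : δ * (1 / 2) / 20 * 2 = δ / 20 := by ring
    rw [he] at h
    refine h.congr_fun ?_ |> fun h => h
    intro j
    simp only [hU]
    ring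
  -- the functions `f j = ε j * H j`
  set f : ℕ → ℂ → ℝ := fun j w => ε j * H j w with hf
  have hfs : ∀ j, ContDiff ℝ ∞ (f j) := fun j => contDiff_const.mul (hHs j)
  have hfk : ∀ j k w, ‖iteratedFDeriv ℝ k (f j) w‖ ≤ ε j * C j k := by
    intro j k w
    have h1 : iteratedFDeriv ℝ k (ε j • H j) w = ε j • iteratedFDeriv ℝ k (H j) w :=
      iteratedFDeriv_const_smul_apply (((hHs j).of_le (by exact_mod_cast le_top)).contDiffAt)
    change ‖iteratedFDeriv ℝ k (ε j • H j) w‖ ≤ _
    rw [h1, norm_smul, Real.norm_of_nonneg (hε j).1.le]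
    exact mul_le_mul_of_nonneg_left (hC j k w) (hε j).1.le
  have hfk2 : ∀ j k, k < j + 3 → ε j * C j k ≤ U j := by
    intro j k hk
    have h1 : C j k ≤ 1 + S j := by
      have : C j k ≤ S j := Finset.single_le_sum (f := fun k => C j k) (fun k _ => hC0 j k)
        (Finset.mem_range.2 hk)
      linarith
    have hp : 0 < 1 + S j := by linarith [hS0 j]
    calc ε j * C j k ≤ M j * (1 + S j) :=
          mul_le_mul (hε j).2.le h1 (hC0 j k) (hM0 j).le
      _ = U j := by simp only [hM]; exact div_mul_cancel₀ _ hp.ne'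
  have hv : ∀ k, Summable fun j => ε j * C j k := by
    intro k
    refine (summable_nat_add_iff k).1 ?_
    refine Summable.of_nonneg_of_le (fun j => mul_nonneg (hε _).1.le (hC0 _ _))
      (fun j => hfk2 (j + k) k (by omega)) ?_
    exact (summable_nat_add_iff k).2 hUsum.summable
  have hf0 : ∀ j w, ‖f j w‖ ≤ U j := by
    intro j w
    have := (hfk j 0 w).trans (hfk2 j 0 (by omega))
    rwa [norm_iteratedFDeriv_zero] at this
  have hf1 : ∀ j w, ‖fderiv ℝ (f j) w‖ ≤ U j := by
    intro j w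
    have := (hfk j 1 w).trans (hfk2 j 1 (by omega))
    rwa [norm_iteratedFDeriv_one] at this
  have hf2 : ∀ j w, ‖fderiv ℝ (fderiv ℝ (f j)) w‖ ≤ U j := by
    intro j w
    have := (hfk j 2 w).trans (hfk2 j 2 (by omega))
    rwa [← norm_iteratedFDeriv_fderiv, norm_iteratedFDeriv_one] at this
  obtain ⟨F, hF⟩ : ∃ F : ℂ → ℝ, F = fun w => ∑' j, f j w := ⟨_, rfl⟩
  obtain ⟨hFs, hs0, hsT, hsL, b0, b1, b2⟩ := sum_facts f (fun k j => ε j * C j k) U (δ / 20) hfs hv
    (fun k j w => hfk j k w) hUsum hf0 hf1 hf2 F hF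
  -- the sum of the original functions
  have hQf : ∀ j w, ε j * Q j w = ek kap w * f j w := by
    intro j w
    simp only [hf, hH, ek]
    have : Real.exp (kap * w.im) * Real.exp (-kap * w.im) = 1 := by
      rw [← Real.exp_add]; simp
    calc ε j * Q j w = ε j * Q j w * (Real.exp (kap * w.im) * Real.exp (-kap * w.im)) := by
          rw [this, mul_one]
      _ = _ := by ring
  have hP : (fun w => ∑' j, ε j * Q j w) = fun w => ek kap w * F w := by
    funext w
    simp only [hQf, hF, tsum_mul_left]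
  have hLf : ∀ j w, ε j * lapC (Q j) w =
      ek kap w * (lapC (f j) w + 2 * kap * dT (f j) w + kap ^ 2 * f j w) := by
    intro j w
    rw [← lapC_mul kap (hfs j), ← lapC_const_mul (ε j) (hQ j)]
    congr 1
    funext z
    exact hQf j z
  have hLsum : ∀ w, HasSum (fun j => ε j * lapC (Q j) w)
      (lapC (fun w => ∑' j, ε j * Q j w) w) := by
    intro w
    rw [hP, lapC_mul kap hFs]
    simp only [hLf]
    exact (((hsL w).add ((hsT w).mul_left (2 * kap))).add ((hs0 w).mul_left (kap ^ 2))).mul_left _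
  refine ⟨?_, ?_, fun w => (hLsum w).summable, fun w => (hLsum w).tsum_eq.symm, ?_⟩
  · rw [hP]; exact (ek_smooth _).mul hFs
  · intro w
    simp only [hQf]
    exact (hs0 w).summable.mul_left _
  · intro w
    have hek : 0 < ek kap w := Real.exp_pos _
    replace b0 := b0 w
    replace b1 := b1 w
    replace b2 := b2 w
    have k0 := kap_pos
    have k1 := kap_lt_one
    have hI : ‖Complex.I‖ = 1 := Complex.norm_I
    have bT : |dT F w| ≤ δ / 20 := by
      have := (fderiv ℝ F w).le_opNorm Complex.I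
      rw [hI, mul_one] at this
      exact this.trans b1
    have bL : |lapC F w| ≤ 2 * (δ / 20) := by
      rw [lapC_eq hFs]
      have e1 : |fderiv ℝ (fderiv ℝ F) w 1 1| ≤ δ / 20 := by
        have := (fderiv ℝ (fderiv ℝ F) w).le_opNorm₂ 1 1
        rw [norm_one, mul_one, mul_one] at this
        exact this.trans b2
      have e2 : |fderiv ℝ (fderiv ℝ F) w Complex.I Complex.I| ≤ δ / 20 := by
        have := (fderiv ℝ (fderiv ℝ F) w).le_opNorm₂ Complex.I Complex.I
        rw [hI, mul_one, mul_one] at this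
        exact this.trans b2
      exact (abs_add_le _ _).trans (by linarith)
    have hekdef : Real.exp (kap * w.im) = ek kap w := rfl
    rw [hekdef]
    have hsumw : (∑' j, ε j * Q j w) = ek kap w * F w := congrFun hP w
    refine ⟨?_, ?_, ?_⟩
    · rw [hsumw, abs_mul, abs_of_pos hek, mul_comm]
      exact mul_le_mul_of_nonneg_right (b0.trans (by linarith)) hek.le
    · rw [hP, (mul_hasFDerivAt kap hFs w).fderiv]
      have him : ‖Complex.imCLM‖ = 1 := Complex.imCLM_norm
      calc ‖ek kap w • fderiv ℝ F w + (ek kap w * kap * F w) • Complex.imCLM‖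
          ≤ ‖ek kap w • fderiv ℝ F w‖ + ‖(ek kap w * kap * F w) • Complex.imCLM‖ :=
            norm_add_le _ _
        _ = ek kap w * ‖fderiv ℝ F w‖ + ek kap w * (kap * |F w|) := by
            rw [norm_smul, norm_smul, him, Real.norm_of_nonneg hek.le, Real.norm_eq_abs, abs_mul,
              abs_mul, abs_of_pos hek, abs_of_pos k0]
            ring
        _ = ek kap w * (‖fderiv ℝ F w‖ + kap * |F w|) := by ring
        _ ≤ ek kap w * δ := by
            apply mul_le_mul_of_nonneg_left _ hek.le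
            have : kap * |F w| ≤ 1 * (δ / 20) :=
              mul_le_mul k1.le b0 (abs_nonneg _) (by norm_num)
            linarith
        _ = δ * ek kap w := mul_comm _ _
    · rw [hP, lapC_mul kap hFs, abs_mul, abs_of_pos hek, mul_comm δ]
      apply mul_le_mul_of_nonneg_left _ hek.le
      have e1 : |2 * kap * dT F w| ≤ 2 * (δ / 20) := by
        rw [abs_mul, abs_of_pos (by positivity : (0:ℝ) < 2 * kap)]
        exact mul_le_mul (by linarith) bT (abs_nonneg _) (by norm_num)
      have e2 : |kap ^ 2 * F w| ≤ 1 * (δ / 20) := by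
        rw [abs_mul, abs_of_pos (by positivity : (0:ℝ) < kap ^ 2)]
        exact mul_le_mul (by nlinarith) b0 (abs_nonneg _) (by norm_num)
      calc |lapC F w + 2 * kap * dT F w + kap ^ 2 * F w|
          ≤ |lapC F w + 2 * kap * dT F w| + |kap ^ 2 * F w| := abs_add_le _ _
        _ ≤ |lapC F w| + |2 * kap * dT F w| + |kap ^ 2 * F w| := by
            gcongr; exact abs_add_le _ _
        _ ≤ δ := by linarith

end Pool.Agent.Helper35.AB
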